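import Pool.Agent.Q288.GI.Rec

set_option autoImplicit false

/-!
# The inverse of an analytic function with positive derivative which tends to infinity
-/

namespace Pool.Agent.Q288.GI

open Filter Topology

/-- an increasing bijective analytic function whose derivative tends to infinity -/
structure Ph (θ : ℝ → ℝ) : Prop where
  an : ∀ t, AnalyticAt ℝ θ t
  pos : ∀ t, 0 < deriv θ t
  top : Tendsto (deriv θ) atTop atTop
  bot : Tendsto (deriv θ) atBot atTop

variable {θ : ℝ → ℝ}

theorem Ph.diff (h : Ph θ) : Differentiable ℝ θ := fun t => (h.an t).differentiableAt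

theorem Ph.mono (h : Ph θ) : StrictMono θ := strictMono_of_deriv_pos h.pos

theorem Ph.low (h : Ph θ) (M : ℝ) : ∃ T : ℝ, ∀ a b : ℝ, T ≤ a → a ≤ b → M * (b - a) ≤ θ b - θ a := by
  obtain ⟨T, hT⟩ := eventually_atTop.1 (h.top.eventually (eventually_ge_atTop M))
  refine ⟨T, fun a b ha hab => ?_⟩
  exact (convex_Ici T).mul_sub_le_image_sub_of_le_deriv h.diff.continuous.continuousOn
    h.diff.differentiableOn (fun x hx => hT x (by rw [interior_Ici] at hx; exact (Set.mem_Ioi.1 hx).le)) a ha b
      (ha.trans hab) hab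

theorem Ph.low' (h : Ph θ) (M : ℝ) : ∃ T : ℝ, ∀ a b : ℝ, b ≤ T → a ≤ b → M * (b - a) ≤ θ b - θ a := by
  obtain ⟨T, hT⟩ := eventually_atBot.1 (h.bot.eventually (eventually_ge_atTop M))
  refine ⟨T, fun a b hb hab => ?_⟩
  exact (convex_Iic T).mul_sub_le_image_sub_of_le_deriv h.diff.continuous.continuousOn
    h.diff.differentiableOn (fun x hx => hT x (by rw [interior_Iic] at hx; exact (Set.mem_Iio.1 hx).le)) a
      (hab.trans hb) b hb hab

theorem Ph.surj (h : Ph θ) : Function.Surjective θ := by
  refine h.diff.continuous.surjective ?_ ?_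
  · obtain ⟨T, hT⟩ := h.low 1
    refine tendsto_atTop_mono' atTop (f₁ := fun b => b + (θ T - T)) ?_ (tendsto_atTop_add_const_right _ _ tendsto_id)
    filter_upwards [eventually_ge_atTop T] with b hb
    have := hT T b le_rfl hb
    linarith
  · obtain ⟨T, hT⟩ := h.low' 1
    refine tendsto_atBot_mono' atBot (f₁ := fun b => b + (θ T - T)) ?_ (tendsto_atBot_add_const_right _ _ tendsto_id)
    filter_upwards [eventually_le_atBot T] with b hb
    have := hT b T le_rfl hb
    linarith

/-- the inverse -/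
noncomputable def Inv (θ : ℝ → ℝ) : ℝ → ℝ := Function.invFun θ

theorem Ph.right (h : Ph θ) (x : ℝ) : θ (Inv θ x) = x := Function.rightInverse_invFun h.surj x

theorem Ph.left (h : Ph θ) (t : ℝ) : Inv θ (θ t) = t := Function.leftInverse_invFun h.mono.injective t

theorem Ph.inv_mono (h : Ph θ) : StrictMono (Inv θ) := by
  intro x y hxy
  rw [← h.right x, ← h.right y] at hxy
  exact h.mono.lt_iff_lt.1 hxy

theorem Ph.inv_cont (h : Ph θ) : Continuous (Inv θ) := by
  have hs : Function.Surjective (Inv θ) := fun t => ⟨θ t, h.left t⟩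
  exact h.inv_mono.monotone.continuous_of_surjective hs

theorem Ph.inv_an (h : Ph θ) (x : ℝ) : AnalyticAt ℝ (Inv θ) x := by
  obtain ⟨t, rfl⟩ := h.surj x
  have h1 := (h.an t).analyticAt_localInverse (h.pos t).ne'
  refine h1.congr ?_
  filter_upwards [HasStrictDerivAt.eventually_right_inverse (h.an t).hasStrictDerivAt (h.pos t).ne'] with y hy
  rw [← hy, h.left, hy]

theorem Ph.inv_top (h : Ph θ) : Tendsto (Inv θ) atTop atTop :=
  tendsto_atTop_atTop_of_monotone h.inv_mono.monotone fun b => ⟨θ b, (h.left b).ge⟩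

theorem Ph.gap (h : Ph θ) (c : ℝ) (hc : 0 < c) : Tendsto (fun x => Inv θ (x + c) - Inv θ x) atTop (𝓝 0) := by
  rw [Metric.tendsto_atTop]
  intro ε hε
  obtain ⟨T, hT⟩ := h.low (2 * c / ε)
  refine ⟨θ T, fun x hx => ?_⟩
  have h1 : T ≤ Inv θ x := by
    rw [← h.left T]
    exact h.inv_mono.monotone hx
  have h2 : Inv θ x < Inv θ (x + c) := h.inv_mono (by linarith)
  have h3 := hT _ _ h1 h2.le
  rw [h.right, h.right, add_sub_cancel_left] at h3
  rw [dist_zero_right, Real.norm_of_nonneg (by linarith)]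
  have h4 : 2 * (Inv θ (x + c) - Inv θ x) ≤ ε := by
    have h5 : 2 * c / ε * (Inv θ (x + c) - Inv θ x) * ε = 2 * c * (Inv θ (x + c) - Inv θ x) := by
      field_simp
    have h6 := mul_le_mul_of_nonneg_right h3 hε.le
    rw [h5] at h6
    have h7 : c * (2 * (Inv θ (x + c) - Inv θ x)) ≤ c * ε := by linarith
    exact le_of_mul_le_mul_left h7 hc
  linarith

/-- **Countability.** -/
theorem Ph.countable (h : Ph θ) {P : ℝ} (hP : 0 < P) {c : ℤ →₀ ℝ} (hc : c ≠ 0) (c0 : ℝ) :
    {x : ℝ | c.sum (fun n y => y * Inv θ (x + P * n)) = c0}.Countable := by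
  obtain ⟨f, hf⟩ : ∃ f : ℝ → ℝ, f = fun x => c.sum (fun n y => y * Inv θ (x + P * n)) - c0 := ⟨_, rfl⟩
  have han : AnalyticOnNhd ℝ f Set.univ := by
    intro x _
    rw [hf]
    unfold Finsupp.sum
    refine AnalyticAt.sub ?_ analyticAt_const
    refine Finset.analyticAt_fun_sum _ fun n _ => ?_
    refine analyticAt_const.mul ?_
    have h1 : AnalyticAt ℝ (fun x : ℝ => x + P * n) x := analyticAt_id.add analyticAt_const
    exact (h.inv_an (x + P * n)).comp_of_eq h1 rfl
  have hset : {x : ℝ | c.sum (fun n y => y * Inv θ (x + P * n)) = c0} = f ⁻¹' {0} := by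
    ext x
    rw [hf]
    simp [sub_eq_zero]
  rw [hset]
  have hne : ∃ x, f x ≠ 0 := by
    by_contra hcon
    push Not at hcon
    refine hc (no_rec (G := fun m : ℤ => Inv θ (P * m)) ?_ ?_ ?_ c c0 ?_)
    · intro m
      apply h.inv_mono
      push_cast
      nlinarith
    · have h1 := (h.gap P hP).comp ((tendsto_natCast_atTop_atTop (R := ℝ)).const_mul_atTop hP)
      refine h1.congr fun m => ?_
      simp only [Function.comp_apply]
      congr 2
      push_cast
      ring
    · have h1 := h.inv_top.comp ((tendsto_natCast_atTop_atTop (R := ℝ)).const_mul_atTop hP)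
      refine h1.congr fun m => ?_
      simp
    · intro m
      have h1 := hcon (P * m)
      rw [hf] at h1
      simp only at h1
      rw [sub_eq_zero] at h1
      rw [← h1]
      refine Finsupp.sum_congr fun n _ => ?_
      congr 2
      push_cast
      ring
  obtain ⟨x, hx⟩ := hne
  have h1 := han.preimage_zero_mem_codiscrete hx
  have h2 : IsClosed (f ⁻¹' {0}) := by
    have : Continuous f := continuous_iff_continuousAt.2 fun x => (han x (Set.mem_univ x)).continuousAt
    exact isClosed_singleton.preimage this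
  have h4 := (mem_codiscrete'.1 h1).2
  rw [Set.preimage_compl, compl_compl] at h4
  exact (HereditarilyLindelofSpace.isLindelof (f ⁻¹' {0})).countable_of_isDiscrete h4

end Pool.Agent.Q288.GI
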