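import Pool.Agent.Q288.GI.Two
import Pool.Agent.Q288.GI.Inv

set_option autoImplicit false
set_option linter.unusedSectionVars false

/-!
# The phase on a vertical line
-/

namespace Pool.Agent.Q288.GI

open Complex Filter Topology MeasureTheory
open scoped ComplexConjugate

variable {X : ℂ → ℂ} {h : ℝ}

/-- the quotient `X(h + it) / X(-h + it)` -/
noncomputable def UU (X : ℂ → ℂ) (h t : ℝ) : ℂ := X (h + t * I) / X (-h + t * I)

/-- the phase -/
noncomputable def th (X : ℂ → ℂ) (h t : ℝ) : ℝ := ∫ s in (0 : ℝ)..t, 2 * (logDeriv X (h + s * I)).re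

theorem sym_pt (h t : ℝ) : (-h + t * I : ℂ) = -(conj (h + t * I : ℂ)) := by
  rw [map_add, map_mul, Complex.conj_ofReal, Complex.conj_ofReal, Complex.conj_I]
  ring

variable (hS : Sy X) (hh : 0 < h) (hβ : ∀ b, X b = 0 → b.re ^ 2 < h ^ 2)

include hS hh hβ

theorem pp (t : ℝ) : X (h + t * I) ≠ 0 ∧ 0 < (logDeriv X (h + t * I)).re :=
  hS.re_pos hh fun b hb => by nlinarith [hβ b hb, sq_nonneg (t - b.im)]

theorem pm (t : ℝ) : X (-h + t * I) ≠ 0 := by
  rw [sym_pt, hS.symm, Ne, map_eq_zero]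
  exact (pp hS hh hβ t).1

theorem U_ne (t : ℝ) : UU X h t ≠ 0 := div_ne_zero (pp hS hh hβ t).1 (pm hS hh hβ t)

theorem U_norm (t : ℝ) : ‖UU X h t‖ = 1 := by
  unfold UU
  rw [norm_div, sym_pt, hS.symm, Complex.norm_conj, div_self]
  exact norm_ne_zero_iff.2 (pp hS hh hβ t).1

theorem L_cont : Continuous fun s : ℝ => 2 * (logDeriv X (h + s * I)).re := by
  rw [continuous_iff_continuousAt]
  intro s
  have h1 : ContinuousAt (logDeriv X) (h + s * I) :=
    ((hS.diff.analyticAt _).deriv.div (hS.diff.analyticAt _) (pp hS hh hβ s).1).continuousAt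
  have h2 : ContinuousAt (fun s : ℝ => (h + s * I : ℂ)) s := by fun_prop
  exact ((Complex.continuous_re.continuousAt).comp (ContinuousAt.comp (f := fun s : ℝ => (h + s * I : ℂ)) h1 h2)).const_mul 2

theorem th_deriv (t : ℝ) : HasDerivAt (th X h) (2 * (logDeriv X (h + t * I)).re) t := by
  unfold th
  have hc := L_cont hS hh hβ
  exact intervalIntegral.integral_hasDerivAt_right (hc.intervalIntegrable _ _)
    (hc.stronglyMeasurableAtFilter _ _) hc.continuousAt

theorem line_deriv (a t : ℝ) : HasDerivAt (fun t : ℝ => X (a + t * I)) (deriv X (a + t * I) * I) t := by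
  have h2 : HasDerivAt X (deriv X (a + t * I)) (a + t * I : ℂ) := (hS.diff _).hasDerivAt
  have h3 : HasDerivAt (fun x : ℝ => (a : ℂ) + x * I) I t := by
    simpa using ((Complex.ofRealCLM.hasDerivAt (x := t)).mul_const I).const_add (a : ℂ)
  exact h2.comp t h3

theorem U_deriv (t : ℝ) : HasDerivAt (UU X h) (UU X h t * (I * ((2 * (logDeriv X (h + t * I)).re : ℝ) : ℂ))) t := by
  have h1 := line_deriv hS hh hβ h t
  have h2 := line_deriv hS hh hβ (-h) t
  have e0 : ((-h : ℝ) : ℂ) = -(h : ℂ) := by push_cast; rfl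
  rw [e0] at h2
  have n1 := (pp hS hh hβ t).1
  have n2 := pm hS hh hβ t
  have h3 := h1.div h2 n2
  have h4 : (fun t : ℝ => X (h + t * I)) / (fun t : ℝ => X (-(h : ℂ) + t * I)) = UU X h := by
    funext t
    rfl
  rw [h4] at h3
  refine h3.congr_deriv ?_
  have e1 : deriv X (-(h : ℂ) + t * I) = -(conj (deriv X (h + t * I))) := by rw [sym_pt, deriv_symm hS]
  have e2 : X (-(h : ℂ) + t * I) = conj (X (h + t * I)) := by rw [sym_pt, hS.symm]
  unfold UU
  rw [e1, e2, logDeriv_apply]
  rw [e2] at n2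
  obtain ⟨a, ha⟩ : ∃ a, a = X (h + t * I) := ⟨_, rfl⟩
  obtain ⟨a', ha'⟩ : ∃ a', a' = deriv X (h + t * I) := ⟨_, rfl⟩
  rw [← ha] at n1 n2 ⊢
  rw [← ha']
  have e3 : ((2 * (a' / a).re : ℝ) : ℂ) = a' / a + conj a' / conj a := by
    rw [← map_div₀, Complex.add_conj]
  rw [e3]
  field_simp
  ring

/-- the quotient through the phase -/
theorem U_eq (t : ℝ) : UU X h t = UU X h 0 * cexp (I * (th X h t : ℝ)) := by
  have hd : ∀ t : ℝ, HasDerivAt (fun t : ℝ => UU X h t * cexp (-(I * (th X h t : ℝ)))) 0 t := by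
    intro t
    have h1 := U_deriv hS hh hβ t
    have h2 : HasDerivAt (fun t : ℝ => ((th X h t : ℝ) : ℂ)) (((2 * (logDeriv X (h + t * I)).re : ℝ)) : ℂ) t :=
      (th_deriv hS hh hβ t).ofReal_comp
    have h3 := ((h2.const_mul I).neg).cexp
    refine (h1.mul h3).congr_deriv ?_
    ring
  have hc := is_const_of_deriv_eq_zero (fun t => (hd t).differentiableAt) (fun t => (hd t).deriv) t 0
  have h0 : th X h 0 = 0 := by
    unfold th
    exact intervalIntegral.integral_same
  rw [h0, Complex.ofReal_zero, mul_zero, neg_zero, Complex.exp_zero, mul_one] at hc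
  rw [← hc, mul_assoc, ← Complex.exp_add, neg_add_cancel, Complex.exp_zero, mul_one]

theorem line_an (a t : ℝ) : AnalyticAt ℝ (fun t : ℝ => X (a + t * I)) t := by
  have h1 : AnalyticAt ℝ X (a + t * I) := (hS.diff.analyticAt _).restrictScalars
  have h2 : AnalyticAt ℝ (fun t : ℝ => (a + t * I : ℂ)) t := by
    refine analyticAt_const.add (AnalyticAt.mul ?_ analyticAt_const)
    exact Complex.ofRealCLM.analyticAt t
  exact h1.comp_of_eq h2 rfl

theorem U_an (t : ℝ) : AnalyticAt ℝ (UU X h) t := by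
  have h1 := line_an hS hh hβ h t
  have h2 := line_an hS hh hβ (-h) t
  have e0 : ((-h : ℝ) : ℂ) = -(h : ℂ) := by push_cast; rfl
  rw [e0] at h2
  exact h1.div h2 (pm hS hh hβ t)

theorem th_an (t : ℝ) : AnalyticAt ℝ (th X h) t := by
  have h1 : AnalyticAt ℝ (fun s : ℝ => th X h t + (Complex.log (UU X h s / UU X h t)).im) t := by
    refine analyticAt_const.add ?_
    have h2 : AnalyticAt ℝ (fun s : ℝ => UU X h s / UU X h t) t :=
      (U_an hS hh hβ t).div analyticAt_const (U_ne hS hh hβ t)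
    have h3 : UU X h t / UU X h t = 1 := div_self (U_ne hS hh hβ t)
    have h4 : AnalyticAt ℝ Complex.log (1 : ℂ) := (analyticAt_clog (by simp)).restrictScalars
    have h5 := h4.comp_of_eq h2 h3
    exact (Complex.imCLM.analyticAt _).comp_of_eq h5 rfl
  refine h1.congr ?_
  have h2 : ContinuousAt (th X h) t := (th_deriv hS hh hβ t).continuousAt
  have h3 : ∀ᶠ s in 𝓝 t, |th X h s - th X h t| < Real.pi := by
    have h4 : ContinuousAt (fun s => |th X h s - th X h t|) t := (h2.sub continuousAt_const).abs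
    have h5 : |th X h t - th X h t| < Real.pi := by simp [Real.pi_pos]
    exact h4.eventually (eventually_lt_nhds h5)
  filter_upwards [h3] with s hs
  have h4 : UU X h s / UU X h t = cexp (((th X h s - th X h t : ℝ) : ℂ) * I) := by
    rw [U_eq hS hh hβ s, U_eq hS hh hβ t, mul_div_mul_left _ _ (U_ne hS hh hβ 0), ← Complex.exp_sub]
    congr 1
    push_cast
    ring
  obtain ⟨h5, h6⟩ := abs_lt.1 hs
  rw [h4, Complex.log_exp (by simp; linarith) (by simp; linarith)]
  simp

/-- the phase is an increasing bijection -/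
theorem th_ph (hev : ∀ z, X (-z) = X z) (hgr : ∀ M : ℝ, ∃ T : ℝ, ∀ t : ℝ, T ≤ t → M ≤ (logDeriv X (h + t * I)).re) :
    Ph (th X h) := by
  have hd : deriv (th X h) = fun t : ℝ => 2 * (logDeriv X (h + t * I)).re := by
    funext t
    exact (th_deriv hS hh hβ t).deriv
  have hcj : ∀ t : ℝ, (logDeriv X (h + (-t : ℝ) * I)).re = (logDeriv X (h + t * I)).re := by
    intro t
    have e1 : (h + (-t : ℝ) * I : ℂ) = -(-h + t * I : ℂ) := by push_cast; ring
    have e2 : ∀ z : ℂ, logDeriv X (-z) = -logDeriv X z := by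
      intro z
      have h1 : deriv X (-z) = -deriv X z := by
        have h2 : deriv (fun w => X (-w)) z = -deriv X (-z) := deriv_comp_neg X z
        have h3 : (fun w => X (-w)) = X := funext hev
        rw [h3] at h2
        rw [h2, neg_neg]
      rw [logDeriv_apply, logDeriv_apply, h1, hev, neg_div]
    rw [e1, e2, sym_pt, logDeriv_apply, deriv_symm hS, hS.symm, neg_div, neg_neg, ← map_div₀, Complex.conj_re, logDeriv_apply]
  refine ⟨th_an hS hh hβ, fun t => ?_, ?_, ?_⟩
  · rw [hd]
    have := (pp hS hh hβ t).2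
    simp only
    linarith
  · rw [hd, tendsto_atTop]
    intro M
    obtain ⟨T, hT⟩ := hgr (M / 2)
    filter_upwards [eventually_ge_atTop T] with t ht
    have := hT t ht
    linarith
  · rw [hd, tendsto_atTop]
    intro M
    obtain ⟨T, hT⟩ := hgr (M / 2)
    filter_upwards [eventually_le_atBot (-T)] with t ht
    have := hT (-t) (by linarith)
    rw [← hcj (-t), neg_neg] at this
    linarith

end Pool.Agent.Q288.GI
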