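import Pool.Agent.Q288.GI.Gro
import Pool.Agent.Q288.GI.Pha
import Pool.Agent.Q278.ZA.A
import Pool.Agent.W803.SD.Totd
import Pool.Agent.H986R2.DBN.RHReal

set_option autoImplicit false

/-!
# The zeros of `X(z + h) - ω X(z - h)` for Riemann's function and the linear independence
-/

namespace Pool.Agent.Q288.GI

open Complex Filter Topology
open Pool.Agent.H24R2.JP (XX)
open Pool.Agent.Q278.ZA (XX_diff XX_symm cf_zeta HZ ZZ)
open scoped ComplexConjugate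

theorem XX_slow : ∃ K : ℝ, 0 < K ∧ ∀ z : ℂ, ‖XX z‖ ≤ Real.exp (K * (1 + ‖z‖) ^ (3 / 2 : ℝ)) := by
  obtain ⟨K, hK⟩ := Pool.Agent.H24R2.JP.growT
  refine ⟨max K 1, lt_of_lt_of_le one_pos (le_max_right _ _), fun z => ?_⟩
  rw [← Pool.Agent.H24R2.JP.b1.2.1 z]
  refine (hK (z ^ 2)).trans (Real.exp_le_exp.2 ?_)
  have h0 := norm_nonneg z
  have h1 : (1 + ‖z ^ 2‖) ^ (3 / 4 : ℝ) ≤ (1 + ‖z‖) ^ (3 / 2 : ℝ) := by
    have e : (1 + ‖z‖) ^ (3 / 2 : ℝ) = ((1 + ‖z‖) ^ 2) ^ (3 / 4 : ℝ) := by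
      rw [← Real.rpow_natCast, ← Real.rpow_mul (by linarith)]
      norm_num
    rw [e, norm_pow]
    apply Real.rpow_le_rpow (by positivity) _ (by norm_num)
    nlinarith
  have h2 : 0 ≤ (1 + ‖z ^ 2‖) ^ (3 / 4 : ℝ) := by positivity
  calc K * (1 + ‖z ^ 2‖) ^ (3 / 4 : ℝ) ≤ max K 1 * (1 + ‖z ^ 2‖) ^ (3 / 4 : ℝ) :=
        mul_le_mul_of_nonneg_right (le_max_left _ _) h2
    _ ≤ _ := mul_le_mul_of_nonneg_left h1 (le_trans zero_le_one (le_max_right _ _))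

theorem XX_strip (z : ℂ) (h : XX z = 0) : |z.re| ≤ 1 / 2 := by
  rw [← Pool.Agent.H24R2.JP.b1.2.1 z] at h
  have h1 : (z ^ 2).re + (z ^ 2).im ^ 2 ≤ 1 / 4 := Pool.Agent.H24R2.JP.zerosT _ h
  have e1 : (z ^ 2).re = z.re ^ 2 - z.im ^ 2 := by rw [pow_two, Complex.mul_re]; ring
  have e2 : (z ^ 2).im = 2 * z.re * z.im := by rw [pow_two, Complex.mul_im]; ring
  rw [e1, e2] at h1
  apply abs_le_of_sq_le_sq _ (by norm_num)
  by_contra hcon
  push Not at hcon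
  nlinarith [sq_nonneg z.im]

theorem XX_even (z : ℂ) : XX (-z) = XX z := by
  have h := Pool.Agent.H24R2.JP.b1
  rw [← h.2.1, ← h.2.1, neg_sq]

theorem sy_zeta : Sy XX where
  diff := XX_diff
  symm := XX_symm
  zero := by
    obtain ⟨c, T0, hc, hT0, h⟩ := Pool.Agent.W803.SD.totd
    have hl : 0 < Real.log T0 := Real.log_pos (by linarith)
    have hT : 0 < T0 := by linarith
    obtain ⟨S, hS, h1⟩ := h 0 T0 le_rfl (by
      have : 0 ≤ c * T0 * Real.log T0 := by positivity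
      simpa using this)
    rcases S.eq_empty_or_nonempty with h0 | ⟨s, hs⟩
    · exfalso
      rw [h0, Finset.card_empty] at h1
      have : 0 < c * T0 * Real.log T0 := by positivity
      simp at h1
      linarith
    · have := (hS s hs).1
      rw [iteratedDeriv_zero] at this
      exact ⟨s, this⟩
  strip := XX_strip
  app := by
    obtain ⟨K, hK, h⟩ := XX_slow
    refine approx_symm XX_diff XX_symm ⟨1, fun h0 => ?_⟩ hK h
    have := XX_strip 1 h0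
    norm_num at this

/-- the admissible `h` -/
theorem adm {h : ℝ} (hh : 1 / 2 < h ∨ (RiemannHypothesis ∧ 0 < h)) :
    ∃ β : ℝ, 0 ≤ β ∧ β < h ∧ ∀ b, XX b = 0 → |b.re| ≤ β := by
  rcases hh with hh | ⟨hRH, hh⟩
  · exact ⟨1 / 2, by norm_num, hh, XX_strip⟩
  · refine ⟨0, le_rfl, hh, fun b hb => ?_⟩
    rw [Pool.Agent.H986R2.DBN.Rhr.re_zero hRH b hb, abs_zero]

theorem adm_sq {h : ℝ} (hh : 1 / 2 < h ∨ (RiemannHypothesis ∧ 0 < h)) :
    0 < h ∧ ∀ b, XX b = 0 → b.re ^ 2 < h ^ 2 := by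
  obtain ⟨β, h0, h1, h2⟩ := adm hh
  refine ⟨by linarith, fun b hb => ?_⟩
  have h3 : b.re ^ 2 ≤ β ^ 2 := by
    rw [← sq_abs]
    exact pow_le_pow_left₀ (abs_nonneg _) (h2 b hb) 2
  nlinarith

theorem ph_zeta {h : ℝ} (hh : 1 / 2 < h ∨ (RiemannHypothesis ∧ 0 < h)) : Ph (th XX h) := by
  obtain ⟨β, h0, h1, h2⟩ := adm hh
  obtain ⟨h3, h4⟩ := adm_sq hh
  exact th_ph sy_zeta h3 h4 XX_even (growth sy_zeta cf_zeta h0 h2 h1)

/-- the combination in the variable `t` -/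
noncomputable def AV (h : ℝ) (u z : ℂ) : ℂ := XX (I * z - h) + u * XX (I * z + h)

theorem AV_FF (h : ℝ) {u : ℂ} (hu : u ≠ 0) (z : ℂ) : AV h u z = u * FF XX h (-u⁻¹) (I * z) := by
  unfold AV FF
  field_simp
  ring

/-- zeros are real and simple -/
theorem AV_simple {h : ℝ} (hh : 1 / 2 < h ∨ (RiemannHypothesis ∧ 0 < h)) {u : ℂ} (hu : ‖u‖ = 1) {z : ℂ}
    (hz : AV h u z = 0) : z.im = 0 ∧ deriv (AV h u) z ≠ 0 := by
  obtain ⟨h3, h4⟩ := adm_sq hh
  have hu0 : u ≠ 0 := by rw [← norm_pos_iff, hu]; exact one_pos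
  have hω : ‖-u⁻¹‖ = 1 := by rw [norm_neg, norm_inv, hu, inv_one]
  have hF : FF XX h (-u⁻¹) (I * z) = 0 := by
    rw [AV_FF h hu0] at hz
    exact (mul_eq_zero.1 hz).resolve_left hu0
  have hno : ¬ ∃ b : ℂ, XX b = 0 ∧ (I * z).re ^ 2 + h ^ 2 + ((I * z).im - b.im) ^ 2 ≤ b.re ^ 2 := by
    rintro ⟨b, hb, hb2⟩
    have := h4 b hb
    nlinarith [sq_nonneg (I * z).re, sq_nonneg ((I * z).im - b.im)]
  have hbad : ¬ ((I * z).re ≠ 0 ∨ deriv (FF XX h (-u⁻¹)) (I * z) = 0) := fun hb =>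
    hno (FF_bad sy_zeta h3 hω hF hb)
  push Not at hbad
  obtain ⟨h5, h6⟩ := hbad
  have h7 : (I * z).re = -z.im := by simp
  refine ⟨by rw [h7] at h5; linarith, ?_⟩
  have h8 : AV h u = fun z => u * FF XX h (-u⁻¹) (I * z) := funext (AV_FF h hu0)
  have h9 : HasDerivAt (fun z => FF XX h (-u⁻¹) (I * z)) (deriv (FF XX h (-u⁻¹)) (I * z) * I) z := by
    have g1 : HasDerivAt (FF XX h (-u⁻¹)) (deriv (FF XX h (-u⁻¹)) (I * z)) (I * z) :=
      ((FF_diff sy_zeta h (-u⁻¹)) _).hasDerivAt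
    have g2 : HasDerivAt (fun z : ℂ => I * z) I z := by simpa using (hasDerivAt_id z).const_mul I
    exact g1.comp z g2
  rw [h8, (h9.const_mul u).deriv]
  exact mul_ne_zero hu0 (mul_ne_zero h6 I_ne_zero)

/-- the point of the circle which belongs to the phase `x` -/
noncomputable def pt (h x : ℝ) : ℂ := -(UU XX h 0 * cexp (I * x))⁻¹

/-- real zeros through the phase -/
theorem AV_zero {h : ℝ} (hh : 1 / 2 < h ∨ (RiemannHypothesis ∧ 0 < h)) {u : ℂ} (hu : ‖u‖ = 1) (t : ℝ) :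
    AV h u t = 0 ↔ u = pt h (th XX h t) := by
  obtain ⟨h3, h4⟩ := adm_sq hh
  have n1 := (pp sy_zeta h3 h4 t).1
  have n2 := pm sy_zeta h3 h4 t
  have hu0 : u ≠ 0 := by rw [← norm_pos_iff, hu]; exact one_pos
  unfold pt AV
  rw [← U_eq sy_zeta h3 h4 t]
  have e1 : (I * t - h : ℂ) = -h + t * I := by ring
  have e2 : (I * t + h : ℂ) = h + t * I := by ring
  rw [e1, e2]
  unfold UU
  obtain ⟨A, hA⟩ : ∃ A, A = XX (h + t * I) := ⟨_, rfl⟩
  obtain ⟨B, hB⟩ : ∃ B, B = XX (-h + t * I) := ⟨_, rfl⟩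
  rw [← hA] at n1 ⊢
  rw [← hB] at n2 ⊢
  rw [inv_div]
  constructor
  · intro h5
    field_simp
    linear_combination h5
  · intro h5
    rw [h5]
    field_simp
    ring

theorem pt_surj {h : ℝ} (hh : 1 / 2 < h ∨ (RiemannHypothesis ∧ 0 < h)) {u : ℂ} (hu : ‖u‖ = 1) :
    ∃ x : ℝ, u = pt h x := by
  obtain ⟨h3, h4⟩ := adm_sq hh
  have hU := U_norm sy_zeta h3 h4 0
  have hU0 := U_ne sy_zeta h3 h4 0
  have hu0 : u ≠ 0 := by rw [← norm_pos_iff, hu]; exact one_pos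
  obtain ⟨w, hw⟩ : ∃ w : ℂ, w = -(u * UU XX h 0)⁻¹ := ⟨_, rfl⟩
  have hwn : ‖w‖ = 1 := by rw [hw, norm_neg, norm_inv, norm_mul, hu, hU]; norm_num
  refine ⟨arg w, ?_⟩
  have h5 : cexp (I * (arg w : ℝ)) = w := by
    have h6 := Complex.norm_mul_exp_arg_mul_I w
    rw [hwn, Complex.ofReal_one, one_mul] at h6
    rw [mul_comm, h6]
  unfold pt
  rw [h5, hw]
  field_simp

theorem pt_eq_iff {h : ℝ} (hh : 1 / 2 < h ∨ (RiemannHypothesis ∧ 0 < h)) (x y : ℝ) :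
    pt h x = pt h y ↔ ∃ n : ℤ, x = y + 2 * Real.pi * n := by
  obtain ⟨h3, h4⟩ := adm_sq hh
  have hU0 := U_ne sy_zeta h3 h4 0
  unfold pt
  rw [neg_inj, inv_inj, mul_right_inj' hU0, Complex.exp_eq_exp_iff_exists_int]
  refine exists_congr fun n => ?_
  constructor
  · intro h5
    have h6 : (x : ℂ) = y + 2 * Real.pi * n := by
      have h7 : I * x = I * (y + 2 * Real.pi * n) := by rw [h5]; ring
      exact mul_left_cancel₀ I_ne_zero h7
    exact_mod_cast h6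
  · intro h5
    rw [h5]
    push_cast
    ring

/-- there are infinitely many zeros -/
theorem AV_inf {h : ℝ} (hh : 1 / 2 < h ∨ (RiemannHypothesis ∧ 0 < h)) {u : ℂ} (hu : ‖u‖ = 1) :
    {t : ℝ | AV h u t = 0}.Infinite := by
  obtain ⟨x, hx⟩ := pt_surj hh hu
  have hP := ph_zeta hh
  refine Set.infinite_of_injective_forall_mem (f := fun n : ℤ => Inv (th XX h) (x + 2 * Real.pi * n)) ?_ ?_
  · intro m n hmn
    have h1 := hP.inv_mono.injective hmn
    have h2 : (2 * Real.pi) * ((m : ℝ) - n) = 0 := by linarith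
    have h3 : (m : ℝ) - n = 0 := (mul_eq_zero.1 h2).resolve_left (by positivity)
    have h4 : (m : ℝ) = n := by linarith
    exact_mod_cast h4
  · intro n
    rw [Set.mem_ofPred_eq, AV_zero hh hu, hP.right, hx, pt_eq_iff hh]
    exact ⟨-n, by push_cast; ring⟩

/-- **Linear independence for all but countably many points of the circle.** -/
theorem AV_indep (K : Subfield ℝ) [Countable K] {h : ℝ} (hh : 1 / 2 < h ∨ (RiemannHypothesis ∧ 0 < h)) :
    {u : ℂ | ‖u‖ = 1 ∧ ¬ ∀ (S : Finset ℝ) (c : ℝ → K) (c0 : K), (∀ t ∈ S, AV h u t = 0) →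
      ∑ t ∈ S, (c t : ℝ) * t = c0 → ∀ t ∈ S, c t = 0}.Countable := by
  classical
  have hP := ph_zeta hh
  have hpi : 0 < 2 * Real.pi := by positivity
  have hcount : (⋃ q : {c : ℤ →₀ K // c ≠ 0} × K, pt h '' {x : ℝ | (q.1.1.mapRange (fun y : K => (y : ℝ)) rfl).sum
      (fun n y => y * Inv (th XX h) (x + 2 * Real.pi * n)) = q.2}).Countable := by
    refine Set.countable_iUnion fun q => (Ph.countable hP hpi ?_ _).image _
    intro h0
    apply q.1.2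
    ext n
    have h1 := DFunLike.congr_fun h0 n
    simpa using h1
  refine hcount.mono ?_
  rintro u ⟨hu, hbad⟩
  push Not at hbad
  obtain ⟨S, c, c0, hS, hsum, t0, ht0, hc0⟩ := hbad
  obtain ⟨x, hx⟩ := pt_surj hh hu
  -- the integers
  have hn : ∀ t ∈ S, ∃ n : ℤ, th XX h t = x + 2 * Real.pi * n := by
    intro t ht
    have h1 := (AV_zero hh hu t).1 (hS t ht)
    rw [hx, eq_comm] at h1
    exact (pt_eq_iff hh _ _).1 h1
  choose! n hn using hn
  have hinj : ∀ t ∈ S, ∀ t' ∈ S, n t = n t' → t = t' := by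
    intro t ht t' ht' h1
    apply hP.mono.injective
    rw [hn t ht, hn t' ht', h1]
  have hval : ∀ t ∈ S, Inv (th XX h) (x + 2 * Real.pi * n t) = t := by
    intro t ht
    rw [← hn t ht, hP.left]
  obtain ⟨d, hd⟩ : ∃ d : ℤ →₀ K, d = ∑ t ∈ S, Finsupp.single (n t) (c t) := ⟨_, rfl⟩
  have hd0 : d ≠ 0 := by
    intro h0
    have h1 : d (n t0) = c t0 := by
      rw [hd, Finsupp.finsetSum_apply, Finset.sum_eq_single t0]
      · rw [Finsupp.single_eq_same]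
      · intro t ht hne
        rw [Finsupp.single_eq_of_ne]
        intro h2
        exact hne (hinj t ht t0 ht0 h2.symm)
      · intro h2; exact absurd ht0 h2
    rw [h0] at h1
    exact hc0 h1.symm
  rw [Set.mem_iUnion]
  refine ⟨(⟨d, hd0⟩, c0), x, ?_, hx.symm⟩
  rw [Set.mem_ofPred_eq, ← hsum]
  simp only
  rw [Finsupp.sum_mapRange_index (by simp), hd, ← Finsupp.sum_finsetSum_index (by simp) (by intro a b1 b2; push_cast; ring)]
  refine Finset.sum_congr rfl fun t ht => ?_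
  rw [Finsupp.sum_single_index (by simp), hval t ht]

end Pool.Agent.Q288.GI
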