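import Pool.Agent.Q288.GI.Two
import Pool.Agent.Y423.GL.TotD

set_option autoImplicit false

/-!
# Growth of the logarithmic derivative on vertical lines to the right of all zeros
-/

namespace Pool.Agent.Q288.GI

open Complex Filter Topology Set Metric
open Pool.Agent.Y671.GL (CF)
open scoped ComplexConjugate

/-- Harnack inequality -/
lemma hk {P : ℂ → ℂ} {c w : ℂ} (hP : DifferentiableOn ℂ P (ball c 1)) (hre : ∀ z ∈ ball c 1, 0 < (P z).re)
    (hw : w ∈ ball c 1) : (1 - ‖w - c‖) / 2 * (P c).re ≤ (P w).re := by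
  have hcre : 0 < (P c).re := hre c (mem_ball_self one_pos)
  have hwre : 0 < (P w).re := hre w hw
  have hne : ∀ z ∈ ball c 1, P z + conj (P c) ≠ 0 := by
    intro z hz h
    have := congrArg Complex.re h
    simp only [add_re, conj_re, zero_re] at this
    linarith [hre z hz]
  have hmaps : MapsTo (fun z => (P z - P c) / (P z + conj (P c))) (ball c 1) (closedBall 0 1) := by
    intro z hz
    rw [mem_closedBall_zero_iff, norm_div, div_le_one (norm_pos_iff.mpr (hne z hz))]
    have h1 : ‖P z - P c‖ ^ 2 ≤ ‖P z + conj (P c)‖ ^ 2 := by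
      rw [← normSq_eq_norm_sq, ← normSq_eq_norm_sq]
      simp only [normSq_apply, sub_re, sub_im, add_re, add_im, conj_re, conj_im]
      nlinarith [mul_pos (hre z hz) hcre]
    exact le_of_pow_le_pow_left₀ (two_ne_zero) (norm_nonneg _) h1
  have hdiff : DifferentiableOn ℂ (fun z => (P z - P c) / (P z + conj (P c))) (ball c 1) :=
    (hP.sub_const _).div (hP.add_const _) hne
  have h1 := dist_le_div_mul_dist_of_mapsTo_ball hdiff (R₂ := 1) (by
    have : (P c - P c) / (P c + conj (P c)) = 0 := by simp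
    rw [this]; exact hmaps) hw
  rw [sub_self, zero_div, dist_zero_right, norm_div,
    div_le_iff₀ (norm_pos_iff.mpr (hne w hw)), dist_eq_norm, div_one, one_mul] at h1
  obtain ⟨r, hr⟩ : ∃ r : ℝ, r = ‖w - c‖ := ⟨_, rfl⟩
  have hr0 : 0 ≤ r := by rw [hr]; exact norm_nonneg _
  have hr1 : r < 1 := by rw [hr]; exact mem_ball_iff_norm.1 hw
  rw [← hr] at h1 ⊢
  have h2 : ‖P w - P c‖ ^ 2 ≤ r ^ 2 * ‖P w + conj (P c)‖ ^ 2 := by
    rw [← mul_pow]
    exact pow_le_pow_left₀ (norm_nonneg _) h1 2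
  rw [← normSq_eq_norm_sq, ← normSq_eq_norm_sq] at h2
  simp only [normSq_apply, sub_re, sub_im, add_re, add_im, conj_re, conj_im] at h2
  have hr2 : r ^ 2 ≤ 1 := by nlinarith
  have h3 : ((P w).re - (P c).re) ^ 2 ≤ (r * ((P w).re + (P c).re)) ^ 2 := by
    nlinarith [mul_nonneg (sub_nonneg.2 hr2) (mul_self_nonneg ((P w).im + -(P c).im))]
  have h4 := abs_le_of_sq_le_sq' h3 (by positivity)
  nlinarith [h4.1, mul_nonneg hr0 hwre.le]

variable {X H Z : ℂ → ℂ} {κ : ℝ}

theorem far (hcf : CF κ H X Z) {u : ℝ} (hu : 1 ≤ u) (M : ℝ) :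
    ∃ T : ℝ, ∀ t : ℝ, T ≤ t → M ≤ (logDeriv X (u + t * I)).re := by
  have hκ := hcf.κ_pos
  obtain ⟨T0, hT0, hlo⟩ := Pool.Agent.Y423.GL.loX hcf u hu (1 / 2) (by norm_num)
  refine ⟨max T0 (Real.exp (2 * M / κ)), fun t ht => ?_⟩
  have ht0 : T0 ≤ t := (le_max_left _ _).trans ht
  obtain ⟨-, -, h3, -⟩ := hlo t (u : ℂ) ht0 (by
    rw [Complex.norm_real, Real.norm_of_nonneg (by linarith)]) (by rw [Complex.ofReal_re]; exact hu)
  have e : (I * t + u : ℂ) = u + t * I := by ring
  rw [e] at h3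
  have h4 := (abs_le.1 ((Complex.abs_re_le_norm _).trans h3)).1
  rw [Complex.sub_re, Complex.ofReal_re] at h4
  have h5 : 2 * M / κ ≤ Real.log t := by
    rw [Real.le_log_iff_exp_le (by linarith)]
    exact (le_max_right _ _).trans ht
  rw [div_le_iff₀ hκ] at h5
  linarith

/-- **Growth.** -/
theorem growth (h : Sy X) (hcf : CF κ H X Z) {β u : ℝ} (hβ0 : 0 ≤ β) (hβ : ∀ b, X b = 0 → |b.re| ≤ β)
    (hu : β < u) (M : ℝ) : ∃ T : ℝ, ∀ t : ℝ, T ≤ t → M ≤ (logDeriv X (u + t * I)).re := by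
  have hp : ∀ v t : ℝ, β < v → X (v + t * I) ≠ 0 ∧ 0 < (logDeriv X (v + t * I)).re := by
    intro v t hv
    refine h.re_pos (by linarith) fun b hb => ?_
    have h1 := hβ b hb
    have h2 : b.re ^ 2 ≤ β ^ 2 := by
      rw [← sq_abs]
      exact pow_le_pow_left₀ (abs_nonneg _) h1 2
    nlinarith [sq_nonneg (t - b.im)]
  rcases le_or_gt (1 + β) u with h4 | h4
  · exact far hcf (by linarith) M
  · obtain ⟨T, hT⟩ := far hcf (u := 1 + β) (by linarith) (2 * |M| / (u - β))
    refine ⟨T, fun t ht => ?_⟩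
    obtain ⟨c, hc⟩ : ∃ c : ℂ, c = ((1 + β : ℝ) : ℂ) + t * I := ⟨_, rfl⟩
    have hcre : c.re = 1 + β := by rw [hc]; simp
    have hcim : c.im = t := by rw [hc]; simp
    have hball : ∀ z ∈ ball c 1, X z ≠ 0 ∧ 0 < (logDeriv X z).re := by
      intro z hz
      rw [mem_ball_iff_norm] at hz
      have g1 := (Complex.abs_re_le_norm _).trans_lt hz
      rw [Complex.sub_re, hcre] at g1
      have g3 := (abs_lt.1 g1).1
      have := hp z.re z.im (by linarith)
      rwa [Complex.re_add_im] at this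
    have hdf : DifferentiableOn ℂ (logDeriv X) (ball c 1) := by
      intro z hz
      exact (((h.diff.analyticAt z).deriv.div (h.diff.analyticAt z) (hball z hz).1).differentiableAt).differentiableWithinAt
    have hwc : (u + t * I : ℂ) - c = ((u - (1 + β) : ℝ) : ℂ) := by rw [hc]; push_cast; ring
    have hwn : ‖(u + t * I : ℂ) - c‖ = 1 + β - u := by
      rw [hwc, Complex.norm_real, Real.norm_eq_abs, abs_of_neg (by linarith)]
      ring
    have h5 := hk hdf (fun z hz => (hball z hz).2) (w := (u + t * I : ℂ)) (by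
      rw [mem_ball_iff_norm, hwn]
      linarith)
    rw [hwn] at h5
    have h6 := hT t ht
    rw [← hc] at h6
    have h7 : 0 < u - β := by linarith
    have h8 : |M| ≤ (1 - (1 + β - u)) / 2 * (logDeriv X c).re := by
      calc |M| = (u - β) / 2 * (2 * |M| / (u - β)) := by field_simp
        _ ≤ (u - β) / 2 * (logDeriv X c).re := by gcongr
        _ = _ := by ring
    exact (le_abs_self M).trans (h8.trans h5)

end Pool.Agent.Q288.GI
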