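import Mathlib

set_option autoImplicit false

/-!
# A null sequence with a linear recurrence decays exponentially
-/

namespace Pool.Agent.Q288.GI

open Filter Topology Polynomial

/-- exponential decay -/
def ExpDec (a : ℕ → ℂ) : Prop := ∃ C q : ℝ, 0 ≤ C ∧ 0 ≤ q ∧ q < 1 ∧ ∀ m, ‖a m‖ ≤ C * q ^ m

/-- the shift -/
noncomputable def E : (ℕ → ℂ) →ₗ[ℂ] (ℕ → ℂ) := LinearMap.funLeft ℂ ℂ Nat.succ

theorem E_apply (a : ℕ → ℂ) (m : ℕ) : E a m = a (m + 1) := rfl

theorem step_small {a b : ℕ → ℂ} {r : ℂ} (hr : ‖r‖ < 1) (h : ∀ m, a (m + 1) - r * a m = b m) (hb : ExpDec b) :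
    ExpDec a := by
  obtain ⟨C, q, hC, hq0, hq1, hq⟩ := hb
  obtain ⟨s, hs⟩ : ∃ s : ℝ, s = (max q ‖r‖ + 1) / 2 := ⟨_, rfl⟩
  have hm1 : max q ‖r‖ < 1 := max_lt hq1 hr
  have hs1 : s < 1 := by rw [hs]; linarith
  have hsm : max q ‖r‖ < s := by rw [hs]; linarith
  have hsq : q < s := (le_max_left _ _).trans_lt hsm
  have hsr : ‖r‖ < s := (le_max_right _ _).trans_lt hsm
  have hs0 : 0 < s := hq0.trans_lt hsq
  refine ⟨max ‖a 0‖ (C / (s - ‖r‖)), s, (norm_nonneg _).trans (le_max_left _ _), hs0.le, hs1, fun m => ?_⟩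
  have hD : C ≤ (s - ‖r‖) * max ‖a 0‖ (C / (s - ‖r‖)) := by
    have h1 : 0 < s - ‖r‖ := by linarith
    calc C = (s - ‖r‖) * (C / (s - ‖r‖)) := by field_simp
      _ ≤ _ := by gcongr; exact le_max_right _ _
  induction m with
  | zero => simp
  | succ m ih =>
    have h1 : a (m + 1) = r * a m + b m := by rw [← h m]; ring
    have h2 : ‖a (m + 1)‖ ≤ ‖r‖ * ‖a m‖ + ‖b m‖ := by
      rw [h1]
      refine (norm_add_le _ _).trans ?_
      rw [norm_mul]
    have h3 : ‖b m‖ ≤ C * s ^ m := (hq m).trans (by gcongr)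
    obtain ⟨D, hDd⟩ : ∃ D : ℝ, D = max ‖a 0‖ (C / (s - ‖r‖)) := ⟨_, rfl⟩
    rw [← hDd] at ih hD ⊢
    have h4 : ‖r‖ * ‖a m‖ ≤ ‖r‖ * (D * s ^ m) := by gcongr
    have h5 : 0 < s ^ m := by positivity
    rw [pow_succ]
    nlinarith

theorem step_large {a b : ℕ → ℂ} {r : ℂ} (hr : 1 ≤ ‖r‖) (h : ∀ m, a (m + 1) - r * a m = b m) (hb : ExpDec b)
    (ha : Tendsto a atTop (𝓝 0)) : ExpDec a := by
  obtain ⟨C, q, hC, hq0, hq1, hq⟩ := hb
  refine ⟨C / (1 - q), q, div_nonneg hC (by linarith), hq0, hq1, fun m => ?_⟩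
  have h1 : ∀ m, ‖a m‖ ≤ ‖a (m + 1)‖ + ‖b m‖ := by
    intro m
    have e : r * a m = a (m + 1) - b m := by rw [← h m]; ring
    have h2 : ‖r‖ * ‖a m‖ ≤ ‖a (m + 1)‖ + ‖b m‖ := by
      rw [← norm_mul, e]
      exact norm_sub_le _ _
    have h3 : 1 * ‖a m‖ ≤ ‖r‖ * ‖a m‖ := by gcongr
    linarith
  have h2 : ∀ N : ℕ, ‖a m‖ ≤ ‖a (m + N)‖ + C * q ^ m * ∑ k ∈ Finset.range N, q ^ k := by
    intro N
    induction N with
    | zero => simp
    | succ N ih =>
      refine ih.trans ?_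
      have h3 := h1 (m + N)
      have h4 := hq (m + N)
      rw [Finset.sum_range_succ, mul_add, pow_add] at *
      have e : m + (N + 1) = m + N + 1 := by ring
      rw [e]
      linarith
  have h3 : ∀ N : ℕ, ‖a m‖ ≤ ‖a (m + N)‖ + C / (1 - q) * q ^ m := by
    intro N
    refine (h2 N).trans ?_
    have h4 : ∑ k ∈ Finset.range N, q ^ k ≤ 1 / (1 - q) := by
      have h5 : 0 < 1 - q := by linarith
      rw [le_div_iff₀ h5]
      have h6 := geom_sum_mul q N
      have h7 : 0 ≤ q ^ N := by positivity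
      nlinarith
    have h5 : C * q ^ m * ∑ k ∈ Finset.range N, q ^ k ≤ C * q ^ m * (1 / (1 - q)) := by gcongr
    have e : C * q ^ m * (1 / (1 - q)) = C / (1 - q) * q ^ m := by ring
    linarith
  have h4 : Tendsto (fun N : ℕ => ‖a (m + N)‖ + C / (1 - q) * q ^ m) atTop (𝓝 (‖(0 : ℂ)‖ + C / (1 - q) * q ^ m)) := by
    refine Tendsto.add_const _ (Tendsto.norm ?_)
    have h5 := (tendsto_add_atTop_iff_nat (f := a) m).2 ha
    simpa [add_comm] using h5
  rw [norm_zero, zero_add] at h4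
  exact ge_of_tendsto' h4 h3

theorem step {a : ℕ → ℂ} {r : ℂ} (hb : ExpDec (fun m => a (m + 1) - r * a m)) (ha : Tendsto a atTop (𝓝 0)) :
    ExpDec a := by
  rcases lt_or_ge ‖r‖ 1 with h | h
  · exact step_small h (fun m => rfl) hb
  · exact step_large h (fun m => rfl) hb ha

theorem multi (s : Multiset ℂ) : ∀ a : ℕ → ℂ, Tendsto a atTop (𝓝 0) →
    ExpDec (aeval E (s.map fun r => X - C r).prod a) → ExpDec a := by
  induction s using Multiset.induction with
  | empty =>
    intro a _ h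
    simpa using h
  | cons r s ih =>
    intro a ha h
    rw [Multiset.map_cons, Multiset.prod_cons, mul_comm, map_mul, Module.End.mul_apply] at h
    have e : (aeval E (X - C r)) a = fun m => a (m + 1) - r * a m := by
      funext m
      rw [map_sub, aeval_X, aeval_C, LinearMap.sub_apply, Pi.sub_apply, E_apply]
      simp
    rw [e] at h
    refine step (ih _ ?_ h) ha
    have h1 := (tendsto_add_atTop_iff_nat (f := a) 1).2 ha
    have h2 := h1.sub (ha.const_mul r)
    simpa using h2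

/-- **A null sequence with a linear recurrence decays exponentially.** -/
theorem rec_decay {p : ℂ[X]} (hp : p ≠ 0) {a : ℕ → ℂ} (ha : Tendsto a atTop (𝓝 0)) (h : aeval E p a = 0) :
    ExpDec a := by
  refine multi p.roots a ha ?_
  have h1 : p = C p.leadingCoeff * (p.roots.map fun r => X - C r).prod :=
    (IsAlgClosed.splits p).eq_prod_roots
  rw [h1, map_mul, Module.End.mul_apply, aeval_C] at h
  have h2 : (aeval E (p.roots.map fun r => X - C r).prod a) = 0 := by
    have h3 : p.leadingCoeff • (aeval E (p.roots.map fun r => X - C r).prod a) = 0 := by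
      simpa using h
    exact (smul_eq_zero.1 h3).resolve_left (leadingCoeff_ne_zero.2 hp)
  rw [h2]
  exact ⟨0, 0, le_rfl, le_rfl, one_pos, fun m => by simp⟩

/-- bounded partial sums -/
theorem ExpDec.bdd {a : ℕ → ℂ} (h : ExpDec a) : ∃ B : ℝ, ∀ N : ℕ, ∑ k ∈ Finset.range N, ‖a k‖ ≤ B := by
  obtain ⟨C, q, hC, hq0, hq1, hq⟩ := h
  refine ⟨C / (1 - q), fun N => ?_⟩
  have h5 : 0 < 1 - q := by linarith
  have h4 : ∑ k ∈ Finset.range N, q ^ k ≤ 1 / (1 - q) := by
    rw [le_div_iff₀ h5]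
    have h6 := geom_sum_mul q N
    have h7 : 0 ≤ q ^ N := by positivity
    nlinarith
  calc ∑ k ∈ Finset.range N, ‖a k‖ ≤ ∑ k ∈ Finset.range N, C * q ^ k := Finset.sum_le_sum fun k _ => hq k
    _ = C * ∑ k ∈ Finset.range N, q ^ k := by rw [Finset.mul_sum]
    _ ≤ C * (1 / (1 - q)) := by gcongr
    _ = _ := by ring

theorem aeval_E (p : ℂ[X]) (a : ℕ → ℂ) (m : ℕ) : aeval E p a m = p.sum fun k c => c * a (m + k) := by
  have hk : ∀ (k : ℕ) (a : ℕ → ℂ) (m : ℕ), (E ^ k) a m = a (m + k) := by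
    intro k
    induction k with
    | zero => intro a m; simp
    | succ k ih =>
      intro a m
      rw [pow_succ, Module.End.mul_apply, ih, E_apply]
      congr 1
  rw [aeval_eq_sum_range, Polynomial.sum_over_range]
  · rw [LinearMap.sum_apply, Finset.sum_apply]
    refine Finset.sum_congr rfl fun k _ => ?_
    rw [LinearMap.smul_apply, Pi.smul_apply, hk, smul_eq_mul]
  · intro n; simp

/-- **No nontrivial linear recurrence for the gaps of an unbounded sequence whose gaps are positive and tend to `0`.** -/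
theorem no_rec {G : ℤ → ℝ} (hpos : ∀ m : ℤ, G m < G (m + 1))
    (hgap : Tendsto (fun m : ℕ => G (m + 1) - G m) atTop (𝓝 0))
    (hunb : Tendsto (fun m : ℕ => G m) atTop atTop) (c : ℤ →₀ ℝ) (c0 : ℝ)
    (h : ∀ m : ℤ, c.sum (fun n x => x * G (m + n)) = c0) : c = 0 := by
  by_contra hc
  -- the gaps
  obtain ⟨d, hd⟩ : ∃ d : ℕ → ℂ, d = fun m : ℕ => ((G (m + 1) - G m : ℝ) : ℂ) := ⟨_, rfl⟩
  have hd0 : Tendsto d atTop (𝓝 0) := by
    rw [hd]
    have := (Complex.continuous_ofReal.tendsto 0).comp hgap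
    rw [Complex.ofReal_zero] at this
    exact this
  -- a bound for the support
  obtain ⟨N, hN⟩ : ∃ N : ℕ, ∀ n ∈ c.support, 0 ≤ n + N := by
    obtain ⟨N, hN⟩ := (c.support.image fun n : ℤ => n.natAbs).bddAbove
    refine ⟨N, fun n hn => ?_⟩
    have h1 : n.natAbs ≤ N := hN (by
      rw [Finset.mem_coe]
      exact Finset.mem_image_of_mem _ hn)
    omega
  obtain ⟨p, hp⟩ : ∃ p : ℂ[X], p = ∑ n ∈ c.support, Polynomial.monomial (n + N).toNat ((c n : ℝ) : ℂ) := ⟨_, rfl⟩
  have hinj : ∀ n ∈ c.support, ∀ n' ∈ c.support, (n + N).toNat = (n' + N).toNat → n = n' := by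
    intro n hn n' hn' h1
    have := hN n hn
    have := hN n' hn'
    omega
  have hp0 : p ≠ 0 := by
    obtain ⟨n, hn⟩ := Finsupp.support_nonempty_iff.2 hc
    intro h0
    have h1 : p.coeff (n + N).toNat = ((c n : ℝ) : ℂ) := by
      rw [hp, finsetSum_coeff, Finset.sum_eq_single n]
      · rw [coeff_monomial, if_pos rfl]
      · intro n' hn' hne
        rw [coeff_monomial, if_neg]
        intro h2
        exact hne (hinj n' hn' n hn h2)
      · intro h2; exact absurd hn h2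
    rw [h0, coeff_zero] at h1
    exact (Finsupp.mem_support_iff.1 hn) (by exact_mod_cast h1.symm)
  have hrec : aeval E p d = 0 := by
    funext m
    rw [hp, map_sum, LinearMap.sum_apply, Finset.sum_apply, Pi.zero_apply]
    have h1 : ∀ n ∈ c.support, (aeval E (Polynomial.monomial (n + N).toNat ((c n : ℝ) : ℂ))) d m =
        ((c n * G ((m : ℤ) + N + 1 + n) - c n * G ((m : ℤ) + N + n) : ℝ) : ℂ) := by
      intro n hn
      rw [aeval_E, Polynomial.sum_monomial_index]
      · rw [hd]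
        simp only
        have e1 : ((m + (n + N).toNat : ℕ) : ℤ) = (m : ℤ) + N + n := by
          have := hN n hn
          push_cast
          rw [Int.toNat_of_nonneg this]
          ring
        rw [e1]
        have e2 : (m : ℤ) + N + n + 1 = (m : ℤ) + N + 1 + n := by ring
        rw [e2]
        push_cast
        ring
      · simp
    rw [Finset.sum_congr rfl h1, ← Complex.ofReal_sum, Finset.sum_sub_distrib]
    have h2 := h ((m : ℤ) + N + 1)
    have h3 := h ((m : ℤ) + N)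
    unfold Finsupp.sum at h2 h3
    rw [h2, h3, sub_self, Complex.ofReal_zero]
  obtain ⟨B, hB⟩ := (rec_decay hp0 hd0 hrec).bdd
  have h1 : ∀ M : ℕ, G M - G 0 ≤ B := by
    intro M
    refine le_trans (le_of_eq ?_) (hB M)
    have h2 : ∀ k : ℕ, ‖d k‖ = G ((k + 1 : ℕ) : ℤ) - G (k : ℤ) := by
      intro k
      rw [hd]
      simp only
      rw [Complex.norm_real, Real.norm_of_nonneg (by linarith [hpos k])]
      push_cast
      rfl
    rw [Finset.sum_congr rfl fun k _ => h2 k, Finset.sum_range_sub (fun k : ℕ => G (k : ℤ))]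
    simp
  obtain ⟨M, hM⟩ := (hunb.eventually (eventually_gt_atTop (B + G 0))).exists
  linarith [h1 M]

end Pool.Agent.Q288.GI
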